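import Pool.Agent.Q185.SR.Stmt

/-! MP_fad7c9_gt: the isometry group of the trivializable sub-Riemannian seven-sphere is the
normaliser of the span of the Clifford quadruple in the orthogonal group; its dimension is 9. -/

namespace Pool.Agent.Results.MP_fad7c9_gt.DimensionNine

open Pool.Agent.Q185.SR (CliffordQuadruple exists_quadruple)
open Pool.Agent.Q185.SR.Stmt

theorem result :
    (∃ A : Fin 4 → Matrix (Fin 8) (Fin 8) ℝ, CliffordQuadruple A) ∧
    ∀ A : Fin 4 → Matrix (Fin 8) (Fin 8) ℝ, CliffordQuadruple A →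
      IsometriesAreNormaliser A ∧ NormaliserClosed A ∧
      ∃ g : Sub8, IsLieAlgebraOf A g ∧ dim8 g = 9 :=
  ⟨exists_quadruple, main⟩

end Pool.Agent.Results.MP_fad7c9_gt.DimensionNine
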